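import Pool.Agent.Lib.H1M.FF.M009
import Pool.Agent.Lib.H1M.FF.M085

/-!
# Borel topological conjugacy on large sets of diffeomorphisms: the complete answer

For every closed manifold of dimension at least two: there is no open dense set of smooth
diffeomorphisms on which topological conjugacy is Borel, and there is a dense `Gδ` set with this
property.
-/

open TopologicalSpace Set Filter Topology MeasureTheory
open scoped Manifold ContDiff
open Pool.Agent.Lib.Helper37.ConjBorel

namespace Pool.Agent.Results.MP_fffd22_an.CompleteAnswer

/-- **Complete answer to the question on Borel conjugacy, for all closed manifolds of dimension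
at least two.**

Let `M` be a (nonempty) closed smooth manifold of dimension `n ≥ 2`.

1. For every open dense set `S` of smooth diffeomorphisms of `M` topological conjugacy on `S` is not
Borel.
2. Every dense `Gδ` set of smooth diffeomorphisms of `M` contains a dense `Gδ` set `S` such that
topological conjugacy on `S` is Borel.
3. There is a nonempty open set `V` of smooth diffeomorphisms of `M` such that for every open set
`S` which meets `V` topological conjugacy on `S` is analytic, complete (every analytic subset of
`2^ℕ` is the preimage of it under a continuous map `2^ℕ → S × S`) and not Borel. -/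
theorem result (n : ℕ) (hn : 2 ≤ n) (M : Type*) [TopologicalSpace M] [T2Space M] [CompactSpace M]
    [Nonempty M] [ChartedSpace (Euc n) M] [IsManifold (𝓡 n) ∞ M] :
    (∀ S : Set (DiffInf n M), IsOpen S → Dense S →
      ¬ MeasurableSet[borel (S × S)]
        {p : S × S | TopConj (p.1 : DiffInf n M) (p.2 : DiffInf n M)}) ∧
    (∀ R : Set (DiffInf n M), IsGδ R → Dense R →
      ∃ S ⊆ R, IsGδ S ∧ Dense S ∧
        MeasurableSet[borel (S × S)]
          {p : S × S | TopConj (p.1 : DiffInf n M) (p.2 : DiffInf n M)}) ∧
    ∃ V : Set (DiffInf n M), IsOpen V ∧ V.Nonempty ∧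
      ∀ S : Set (DiffInf n M), IsOpen S → (S ∩ V).Nonempty →
        AnalyticSet {p : S × S | TopConj (p.1 : DiffInf n M) (p.2 : DiffInf n M)} ∧
        (∀ A : Set (ℕ → Bool), AnalyticSet A → ∃ F : (ℕ → Bool) → S × S, Continuous F ∧
          ∀ x, x ∈ A ↔ TopConj ((F x).1 : DiffInf n M) ((F x).2 : DiffInf n M)) ∧
        ¬ MeasurableSet[borel (S × S)]
          {p : S × S | TopConj (p.1 : DiffInf n M) (p.2 : DiffInf n M)} := by
  obtain ⟨V, hV, hne, key⟩ := Pool.Agent.Lib.H37D.main_open_set hn M
  refine ⟨fun S hS hd => ?_, fun R hR hRd => main_theorem n M R hR hRd, V, hV, hne, key⟩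
  have h1 : (V ∩ S).Nonempty := hd.inter_open_nonempty V hV hne
  rw [inter_comm] at h1
  exact (key S hS h1).2.2

end Pool.Agent.Results.MP_fffd22_an.CompleteAnswer
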