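import Pool.Agent.Lib.H37C.G2

/-!
# Topological conjugacy is complete analytic near diffeomorphisms with a periodic spot
-/

open TopologicalSpace Set Filter Topology MeasureTheory
open scoped Manifold ContDiff
open Pool.Agent.Lib.Helper37.ConjBorel
open Pool.Agent.Lib.H37C

namespace Pool.Agent.Results.MP_fffd22_an.PeriodicSpotComplete

/-- **Topological conjugacy is complete analytic near maps with a periodic spot.**

Let `M` be a closed smooth manifold of dimension `n ≥ 1` and `U` an open set of smooth
diffeomorphisms of `M` which contains a diffeomorphism some iterate of which is the identity on a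
nonempty open set. Then topological conjugacy on `U` is an analytic relation, every analytic subset
of `2^ℕ` is the preimage of it under a continuous map `2^ℕ → U × U`, and it is not Borel. -/
theorem result (n : ℕ) (hn : 0 < n) (M : Type*) [TopologicalSpace M] [T2Space M] [CompactSpace M]
    [ChartedSpace (Euc n) M] [IsManifold (𝓡 n) ∞ M] (U : Set (DiffInf n M)) (hU : IsOpen U)
    (hf : ∃ f₀ ∈ U, HasSpot f₀) :
    AnalyticSet {p : U × U | TopConj (p.1 : DiffInf n M) (p.2 : DiffInf n M)} ∧
    (∀ A : Set (ℕ → Bool), AnalyticSet A → ∃ F : (ℕ → Bool) → U × U, Continuous F ∧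
      ∀ x, x ∈ A ↔ TopConj ((F x).1 : DiffInf n M) ((F x).2 : DiffInf n M)) ∧
    ¬ MeasurableSet[borel (U × U)]
      {p : U × U | TopConj (p.1 : DiffInf n M) (p.2 : DiffInf n M)} :=
  main hn hU hf

end Pool.Agent.Results.MP_fffd22_an.PeriodicSpotComplete
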